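import Pool.Agent.ZPT.Stmts

/-!
# Squad ZPT, rows RU and RV: roots of unity near 1 in a p-adic field
-/

set_option autoImplicit false

namespace Pool.Agent.ZPT.H49

open Pool.Agent.ZPT

section

variable {K : Type} [NormedField K] [CharZero K] [IsUltrametricDist K]

theorem nat_le {p : ℕ} (hp : p.Prime) (hK : Ext p K) (m : ℕ) : ‖(m : K)‖ ≤ 1 := by
  haveI := Fact.mk hp
  have h := hK (m : ℚ)
  rw [Rat.cast_natCast] at h
  rw [h]
  exact_mod_cast padicNorm.of_nat m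

theorem p_norm {p : ℕ} (hp : p.Prime) (hK : Ext p K) : ‖(p : K)‖ = 1 / (p : ℝ) := by
  have h := hK (p : ℚ)
  rw [Rat.cast_natCast] at h
  rw [h, padicNorm.padicNorm_p hp.one_lt]
  push_cast
  rw [one_div]

theorem l_norm {p l : ℕ} (hp : p.Prime) (hl : l.Prime) (hne : p ≠ l) (hK : Ext p K) :
    ‖(l : K)‖ = 1 := by
  haveI := Fact.mk hp
  haveI := Fact.mk hl
  have h := hK (l : ℚ)
  rw [Rat.cast_natCast] at h
  rw [h, padicNorm.padicNorm_of_prime_of_ne hne]
  norm_num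

theorem pow_sub_one_le {w : K} (hw : ‖w - 1‖ ≤ 1) (i : ℕ) : ‖w ^ i - 1‖ ≤ ‖w - 1‖ := by
  induction i with
  | zero => rw [pow_zero, sub_self, norm_zero]; exact norm_nonneg _
  | succ i ih =>
    have e : w ^ (i + 1) - 1 = (w ^ i - 1) * (w - 1) + (w ^ i - 1) + (w - 1) := by ring
    rw [e]
    have h1 : ‖(w ^ i - 1) * (w - 1)‖ ≤ ‖w - 1‖ := by
      rw [norm_mul]
      exact mul_le_of_le_one_left (norm_nonneg _) (ih.trans hw)
    exact (IsUltrametricDist.norm_add_le_max _ _).trans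
      (max_le ((IsUltrametricDist.norm_add_le_max _ _).trans (max_le h1 ih)) le_rfl)

theorem pow_sub_lin {w : K} (hw : ‖w - 1‖ ≤ 1) (i : ℕ) :
    ‖w ^ i - 1 - (i : K) * (w - 1)‖ ≤ ‖w - 1‖ ^ 2 := by
  induction i with
  | zero => simp
  | succ i ih =>
    have e : w ^ (i + 1) - 1 - ((i + 1 : ℕ) : K) * (w - 1) =
        (w ^ i - 1 - (i : K) * (w - 1)) + (w ^ i - 1) * (w - 1) := by
      push_cast
      ring
    rw [e]
    refine (IsUltrametricDist.norm_add_le_max _ _).trans (max_le ih ?_)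
    rw [norm_mul, sq]
    exact mul_le_mul_of_nonneg_right (pow_sub_one_le hw i) (norm_nonneg _)

theorem geom_near {w : K} (hw : ‖w - 1‖ ≤ 1) (l : ℕ) :
    ‖∑ i ∈ Finset.range l, w ^ i - (l : K)‖ ≤ ‖w - 1‖ := by
  induction l with
  | zero => simp
  | succ l ih =>
    rw [Finset.sum_range_succ]
    have e : ∑ i ∈ Finset.range l, w ^ i + w ^ l - ((l + 1 : ℕ) : K) =
        (∑ i ∈ Finset.range l, w ^ i - (l : K)) + (w ^ l - 1) := by
      push_cast
      ring
    rw [e]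
    exact (IsUltrametricDist.norm_add_le_max _ _).trans (max_le ih (pow_sub_one_le hw l))

theorem geom_near2 {w : K} (hw : ‖w - 1‖ ≤ 1) (l : ℕ) :
    ‖∑ i ∈ Finset.range l, w ^ i - (l : K) - ((∑ i ∈ Finset.range l, i : ℕ) : K) * (w - 1)‖ ≤
      ‖w - 1‖ ^ 2 := by
  induction l with
  | zero => simp
  | succ l ih =>
    rw [Finset.sum_range_succ, Finset.sum_range_succ (fun i => i)]
    have e : ∑ i ∈ Finset.range l, w ^ i + w ^ l - ((l + 1 : ℕ) : K) -
        ((∑ i ∈ Finset.range l, i + l : ℕ) : K) * (w - 1) =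
        (∑ i ∈ Finset.range l, w ^ i - (l : K) - ((∑ i ∈ Finset.range l, i : ℕ) : K) * (w - 1)) +
          (w ^ l - 1 - (l : K) * (w - 1)) := by
      push_cast
      ring
    rw [e]
    exact (IsUltrametricDist.norm_add_le_max _ _).trans (max_le ih (pow_sub_lin hw l))

theorem prime_order {p : ℕ} (hp : p.Prime) (hp3 : 3 ≤ p) (hK : Ext p K) {l : ℕ} (hl : l.Prime)
    {w : K} (hwl : w ^ l = 1) (hw : ‖w - 1‖ ≤ 1 / (p : ℝ)) : w = 1 := by
  by_contra hne
  have hp0 : (0 : ℝ) < p := by exact_mod_cast hp.pos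
  have hp1 : 1 / (p : ℝ) < 1 := by
    rw [div_lt_one hp0]
    exact_mod_cast hp.one_lt
  have hw1 : ‖w - 1‖ ≤ 1 := hw.trans hp1.le
  have hgeom : ∑ i ∈ Finset.range l, w ^ i = 0 := by
    have h1 := geom_sum_mul w l
    rw [hwl, sub_self] at h1
    exact (mul_eq_zero.mp h1).resolve_right (sub_ne_zero.mpr hne)
  by_cases hpl : p = l
  · subst hpl
    have h2 := geom_near2 hw1 p
    rw [hgeom] at h2
    have hsum : ∑ i ∈ Finset.range p, i = p * ((p - 1) / 2) := by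
      have h3 := Finset.sum_range_id_mul_two p
      have hodd : Odd p := hp.odd_of_ne_two (by omega)
      obtain ⟨m, hm⟩ := hodd
      have h4 : (p - 1) / 2 = m := by omega
      have h5 : p - 1 = 2 * m := by omega
      rw [h4]
      rw [h5] at h3
      have h6 : (∑ i ∈ Finset.range p, i) * 2 = (p * m) * 2 := by rw [h3]; ring
      exact Nat.eq_of_mul_eq_mul_right (by norm_num) h6
    rw [hsum] at h2
    push_cast at h2
    have h7 : (p : K) = -((0 - (p : K) - (p : K) * (((p - 1) / 2 : ℕ) : K) * (w - 1)) +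
        (p : K) * (((p - 1) / 2 : ℕ) : K) * (w - 1)) := by ring
    have h8 : ‖(p : K) * (((p - 1) / 2 : ℕ) : K) * (w - 1)‖ ≤ 1 / (p : ℝ) * (1 / (p : ℝ)) := by
      rw [norm_mul, norm_mul, p_norm hp hK]
      have h9 := nat_le hp hK ((p - 1) / 2)
      have h10 : 1 / (p : ℝ) * ‖(((p - 1) / 2 : ℕ) : K)‖ ≤ 1 / (p : ℝ) :=
        mul_le_of_le_one_right (by positivity) h9
      exact mul_le_mul h10 hw (norm_nonneg _) (by positivity)
    have h11 : ‖w - 1‖ ^ 2 ≤ 1 / (p : ℝ) * (1 / (p : ℝ)) := by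
      rw [sq]
      exact mul_le_mul hw hw (norm_nonneg _) (by positivity)
    have h12 : 1 / (p : ℝ) ≤ 1 / (p : ℝ) * (1 / (p : ℝ)) := by
      calc 1 / (p : ℝ) = ‖(p : K)‖ := (p_norm hp hK).symm
        _ = _ := by conv_lhs => rw [h7]
        _ ≤ _ := by
          rw [norm_neg]
          exact (IsUltrametricDist.norm_add_le_max _ _).trans (max_le (h2.trans h11) h8)
    have h13 : 1 / (p : ℝ) * (1 / (p : ℝ)) < 1 / (p : ℝ) :=
      mul_lt_of_lt_one_right (by positivity) hp1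
    exact absurd h12 (not_le.mpr h13)
  · have h2 := geom_near hw1 l
    rw [hgeom, zero_sub, norm_neg, l_norm hp hl hpl hK] at h2
    exact absurd (h2.trans hw) (not_le.mpr hp1)

theorem ru_aux {p : ℕ} (hp : p.Prime) (hp3 : 3 ≤ p) (hK : Ext p K) (w : K) (M : ℕ) (hM : 1 ≤ M)
    (hwM : w ^ M = 1) (hw : ‖w - 1‖ ≤ 1 / (p : ℝ)) : w = 1 := by
  by_contra hne
  have hp0 : (0 : ℝ) < p := by exact_mod_cast hp.pos
  have hp1 : 1 / (p : ℝ) < 1 := by
    rw [div_lt_one hp0]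
    exact_mod_cast hp.one_lt
  have hw1 : ‖w - 1‖ ≤ 1 := hw.trans hp1.le
  have ho : 0 < orderOf w := orderOf_pos_iff.mpr (isOfFinOrder_iff_pow_eq_one.mpr ⟨M, hM, hwM⟩)
  have ho1 : orderOf w ≠ 1 := fun h => hne (orderOf_eq_one_iff.mp h)
  obtain ⟨l, hl, hlo⟩ := Nat.exists_prime_and_dvd ho1
  obtain ⟨k, hk⟩ := hlo
  have hk0 : 0 < k := by
    rcases Nat.eq_zero_or_pos k with h | h
    · rw [h, mul_zero] at hk
      omega
    · exact h
  have hkl : k < orderOf w := by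
    rw [hk]
    exact (Nat.lt_mul_iff_one_lt_left hk0).mpr hl.one_lt
  have h1 : (w ^ k) ^ l = 1 := by
    rw [← pow_mul, mul_comm k l, ← hk]
    exact pow_orderOf_eq_one w
  have h2 : w ^ k = 1 := prime_order hp hp3 hK hl h1 ((pow_sub_one_le hw1 k).trans hw)
  exact pow_ne_one_of_lt_orderOf hk0.ne' hkl h2

theorem pow_prime_le {p : ℕ} (hp : p.Prime) (hK : Ext p K) {w : K} (hw : ‖w - 1‖ ≤ 1) :
    ‖w ^ p - 1‖ ≤ max (‖w - 1‖ / (p : ℝ)) (‖w - 1‖ ^ p) := by
  have hp0 : (0 : ℝ) < p := by exact_mod_cast hp.pos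
  have e : w ^ p - 1 = ∑ i ∈ Finset.range p, (w - 1) ^ (i + 1) * (p.choose (i + 1) : K) := by
    have h1 := add_pow (w - 1) 1 p
    rw [sub_add_cancel, Finset.sum_range_succ'] at h1
    rw [h1]
    simp
  rw [e]
  refine (IsUltrametricDist.norm_sum_le_of_forall_le_of_nonneg
    (le_max_of_le_left (by positivity)) ?_)
  intro i hi
  rw [Finset.mem_range] at hi
  rw [norm_mul, norm_pow]
  rcases eq_or_ne (i + 1) p with h | h
  · rw [h, Nat.choose_self, Nat.cast_one, norm_one, mul_one]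
    exact le_max_right _ _
  · apply le_max_of_le_left
    have h2 : p ∣ p.choose (i + 1) := hp.dvd_choose_self (by omega) (by omega)
    obtain ⟨c, hc⟩ := h2
    rw [hc, Nat.cast_mul, norm_mul, p_norm hp hK]
    have h3 := nat_le hp hK c
    have h4 : ‖w - 1‖ ^ (i + 1) ≤ ‖w - 1‖ := by
      rw [pow_succ]
      exact mul_le_of_le_one_left (norm_nonneg _) (pow_le_one₀ (norm_nonneg _) hw)
    calc ‖w - 1‖ ^ (i + 1) * (1 / (p : ℝ) * ‖(c : K)‖) ≤ ‖w - 1‖ * (1 / (p : ℝ) * 1) := by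
          apply mul_le_mul h4 _ (by positivity) (norm_nonneg _)
          exact mul_le_mul_of_nonneg_left h3 (by positivity)
      _ = ‖w - 1‖ / (p : ℝ) := by ring

theorem rv_aux {p : ℕ} (hp : p.Prime) (hK : Ext p K) {ρ : ℝ} (h0 : 0 ≤ ρ) (h1 : ρ < 1) {w : K}
    (hw : ‖w - 1‖ ≤ ρ) (j : ℕ) : ‖w ^ (p ^ j) - 1‖ ≤ max (1 / (p : ℝ)) (ρ ^ (p ^ j)) := by
  have hp0 : (0 : ℝ) < p := by exact_mod_cast hp.pos
  have hp1 : 1 / (p : ℝ) ≤ 1 := by
    rw [div_le_one hp0]
    exact_mod_cast hp.one_lt.le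
  induction j with
  | zero =>
    rw [pow_zero, pow_one, pow_one]
    exact hw.trans (le_max_right _ _)
  | succ j ih =>
    have hle : ‖w ^ (p ^ j) - 1‖ ≤ 1 := ih.trans (max_le hp1 (pow_le_one₀ h0 h1.le))
    have h2 := pow_prime_le hp hK hle
    rw [← pow_mul, ← pow_succ] at h2
    refine h2.trans (max_le ?_ ?_)
    · apply le_max_of_le_left
      exact div_le_div_of_nonneg_right hle hp0.le
    · rcases le_total (1 / (p : ℝ)) (ρ ^ (p ^ j)) with h | h
      · rw [max_eq_right h] at ih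
        apply le_max_of_le_right
        rw [pow_succ, pow_mul]
        exact pow_le_pow_left₀ (norm_nonneg _) ih p
      · rw [max_eq_left h] at ih
        apply le_max_of_le_left
        calc ‖w ^ (p ^ j) - 1‖ ^ p ≤ ‖w ^ (p ^ j) - 1‖ ^ 1 :=
              pow_le_pow_of_le_one (norm_nonneg _) hle hp.one_lt.le
          _ = ‖w ^ (p ^ j) - 1‖ := pow_one _
          _ ≤ _ := ih

end

/-- Row RU. -/
theorem ru : RUStmt := by
  intro p hp hp3 K _ _ _ hK w M hM hwM hw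
  exact ru_aux hp hp3 hK w M hM hwM hw

/-- Row RV. -/
theorem rv : RVStmt := by
  intro p hp hp3 K _ _ _ hK ρ hρ
  have hp0 : (0 : ℝ) < p := by exact_mod_cast hp.pos
  rcases lt_or_ge ρ 0 with hneg | hnn
  · refine ⟨0, fun w M _ _ hw => ?_⟩
    exact absurd (hw.trans_lt hneg) (not_lt.mpr (norm_nonneg _))
  · obtain ⟨R, hR⟩ := exists_pow_lt_of_lt_one (show (0 : ℝ) < 1 / (p : ℝ) by positivity) hρ
    refine ⟨R, fun w M hM hwM hw => ?_⟩
    refine ru_aux hp hp3 hK (w ^ (p ^ R)) M hM ?_ ?_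
    · rw [← pow_mul, mul_comm, pow_mul, hwM, one_pow]
    · refine (rv_aux hp hK hnn hρ hw R).trans (max_le le_rfl ?_)
      have h1 : R ≤ p ^ R := (Nat.lt_pow_self hp.one_lt).le
      exact (pow_le_pow_of_le_one hnn hρ.le h1).trans hR.le

end Pool.Agent.ZPT.H49
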