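import Pool.Agent.ZPT.Stmts

/-!
# Squad ZPT, row CF: a hypersurface meets a curve in finitely many points
-/

set_option autoImplicit false

namespace Pool.Agent.ZPT.H49

open Pool.Agent.ZPT

/-- A nonzero element of a Noetherian domain of dimension one is in finitely many primes. -/
theorem finite_primes {S : Type} [CommRing S] [IsNoetherianRing S] [IsDomain S]
    (hd : ringKrullDim S ≤ 1) (f : S) (hf : f ≠ 0) :
    {I : Ideal S | I.IsPrime ∧ f ∈ I}.Finite := by
  have h1 : Ring.KrullDimLE 1 S := Ring.krullDimLE_iff.mpr (by simpa using hd)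
  refine (Ideal.finite_minimalPrimes_of_isNoetherianRing S (Ideal.span {f})).subset ?_
  rintro I ⟨hI, hfI⟩
  refine ⟨⟨hI, (Ideal.span_singleton_le_iff_mem I).mpr hfI⟩, ?_⟩
  rintro J ⟨hJ, hfJ⟩ hJI
  have hJ0 : J ≠ ⊥ := by
    rintro rfl
    exact hf ((Ideal.span_singleton_le_iff_mem _).mp hfJ)
  have hJm : J.IsMaximal := hJ.isMaximal_of_ne_bot hJ0
  exact (hJm.eq_of_le hI.ne_top hJI).ge

/-- Row CF. -/
theorem cf : CFStmt := by
  intro n P hP hdim F hF
  have hF0 : (Ideal.Quotient.mk P F) ≠ 0 := fun h => hF (Ideal.Quotient.eq_zero_iff_mem.mp h)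
  have hfin := finite_primes hdim.le _ hF0
  have hP1 : ∀ x : {x : Fin n → ℂ | x ∈ V P ∧ MvPolynomial.eval x F = 0}, ∀ a ∈ P,
      (MvPolynomial.eval (x : Fin n → ℂ)) a = 0 := fun x a ha => x.2.1 a ha
  let g : {x : Fin n → ℂ | x ∈ V P ∧ MvPolynomial.eval x F = 0} →
      {I : Ideal (MvPolynomial (Fin n) ℂ ⧸ P) | I.IsPrime ∧ Ideal.Quotient.mk P F ∈ I} := fun x =>
    ⟨RingHom.ker (Ideal.Quotient.lift P (MvPolynomial.eval (x : Fin n → ℂ)) (hP1 x)),
      RingHom.ker_isPrime _, by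
        rw [RingHom.mem_ker, Ideal.Quotient.lift_mk]
        exact x.2.2⟩
  have hinj : Function.Injective g := by
    intro x y hxy
    apply Subtype.ext
    funext i
    have e1 : RingHom.ker (Ideal.Quotient.lift P (MvPolynomial.eval (x : Fin n → ℂ)) (hP1 x)) =
        RingHom.ker (Ideal.Quotient.lift P (MvPolynomial.eval (y : Fin n → ℂ)) (hP1 y)) :=
      congrArg Subtype.val hxy
    have e2 : Ideal.Quotient.mk P
        (MvPolynomial.X i - MvPolynomial.C ((x : Fin n → ℂ) i)) ∈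
        RingHom.ker (Ideal.Quotient.lift P (MvPolynomial.eval (x : Fin n → ℂ)) (hP1 x)) := by
      rw [RingHom.mem_ker, Ideal.Quotient.lift_mk]
      simp
    rw [e1, RingHom.mem_ker, Ideal.Quotient.lift_mk] at e2
    simp only [map_sub, MvPolynomial.eval_X, MvPolynomial.eval_C] at e2
    exact (sub_eq_zero.mp e2).symm
  have h6 : Finite {I : Ideal (MvPolynomial (Fin n) ℂ ⧸ P) |
      I.IsPrime ∧ Ideal.Quotient.mk P F ∈ I} := hfin.to_subtype
  have h7 := Finite.of_injective g hinj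
  exact Set.toFinite _

end Pool.Agent.ZPT.H49
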