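import Pool.Agent.ZPT.Stmts

/-!
# Squad ZPT, row NW: the monic polynomial with given power sums
-/

set_option autoImplicit false

namespace Pool.Agent.ZPT.H49

open Polynomial Pool.Agent.ZPT

/-- the elementary symmetric functions computed from the power sums by the identities of Newton -/
noncomputable def E (R : ℕ → ℚ[X]) : ℕ → ℚ[X]
  | 0 => 1
  | k + 1 => C (1 / ((k + 1 : ℕ) : ℚ)) * ((-1) ^ (k + 2) *
      ∑ i : Fin (k + 1), (-1) ^ (i : ℕ) * E R i * R (k + 1 - i))
  decreasing_by exact i.2

theorem filt_sum {M : Type} [AddCommMonoid M] (k : ℕ) (g : ℕ × ℕ → M) :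
    ∑ a ∈ Finset.HasAntidiagonal.antidiagonal k with a.1 < k, g a = ∑ i ∈ Finset.range k, g (i, k - i) := by
  rw [Finset.sum_filter, Finset.Nat.sum_antidiagonal_eq_sum_range_succ_mk, Finset.sum_range_succ]
  simp only [lt_self_iff_false, if_false, add_zero]
  refine Finset.sum_congr rfl fun i hi => ?_
  rw [Finset.mem_range] at hi
  rw [if_pos hi]

theorem eval_E {K : Type} [Field K] [CharZero K] (R : ℕ → ℚ[X]) (x : K) (σ : Type) [Fintype σ]
    (f : σ → K) (N : ℕ)
    (h : ∀ k : ℕ, 1 ≤ k → k ≤ N → ∑ i, f i ^ k = (R k).eval₂ (Rat.castHom K) x) :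
    ∀ k : ℕ, k ≤ N → (E R k).eval₂ (Rat.castHom K) x =
      MvPolynomial.aeval f (MvPolynomial.esymm σ K k) := by
  intro k
  induction k using Nat.strong_induction_on with
  | _ k ih =>
    intro hk
    cases k with
    | zero => simp [E, MvPolynomial.esymm_zero]
    | succ k =>
      have h1 := congrArg (MvPolynomial.aeval f) (MvPolynomial.mul_esymm_eq_sum σ K (k + 1))
      rw [filt_sum] at h1
      simp only [map_mul, map_natCast, map_pow, map_neg, map_one, map_sum] at h1
      have h2 : ∀ i ∈ Finset.range (k + 1), (-1 : K) ^ i *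
          MvPolynomial.aeval f (MvPolynomial.esymm σ K i) *
            MvPolynomial.aeval f (MvPolynomial.psum σ K (k + 1 - i)) =
          (-1 : K) ^ i * (E R i).eval₂ (Rat.castHom K) x *
            (R (k + 1 - i)).eval₂ (Rat.castHom K) x := by
        intro i hi
        rw [Finset.mem_range] at hi
        rw [ih i hi (by omega), ← h (k + 1 - i) (by omega) (by omega)]
        simp [MvPolynomial.psum]
      rw [Finset.sum_congr rfl h2] at h1
      have h3 : ((k + 1 : ℕ) : K) ≠ 0 := Nat.cast_ne_zero.mpr (Nat.succ_ne_zero k)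
      rw [E, eval₂_mul, eval₂_C, eval₂_mul, eval₂_pow, eval₂_neg, eval₂_one, eval₂_finset_sum]
      rw [Finset.sum_congr rfl (fun (i : Fin (k + 1)) _ => show
        eval₂ (Rat.castHom K) x ((-1) ^ (i : ℕ) * E R i * R (k + 1 - i)) =
          (fun j : ℕ => (-1 : K) ^ j * (E R j).eval₂ (Rat.castHom K) x *
            (R (k + 1 - j)).eval₂ (Rat.castHom K) x) i by
          simp only [eval₂_mul, eval₂_pow, eval₂_neg, eval₂_one])]
      rw [Fin.sum_univ_eq_sum_range (fun j : ℕ => (-1 : K) ^ j * (E R j).eval₂ (Rat.castHom K) x *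
            (R (k + 1 - j)).eval₂ (Rat.castHom K) x) (k + 1), ← h1]
      simp only [Rat.coe_castHom, Rat.cast_div, Rat.cast_one, Rat.cast_natCast]
      field_simp

/-- Row NW. -/
theorem nw : NWStmt := by
  intro N R
  refine ⟨∑ j ∈ Finset.range (N + 1), (-1) ^ j * (C (E R j) * X ^ (N - j)), ?_⟩
  intro K _ _ x s y hs h Y
  have hE := eval_E R x {i // i ∈ s} (fun i => y i) N (by
    intro k hk1 hk2
    rw [← h k hk1 hk2]
    exact Finset.sum_coe_sort s (fun i => y i ^ k))
  set m : Multiset K := Multiset.map (fun i : {i // i ∈ s} => y (i : ℕ × ℕ))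
    (Finset.univ : Finset {i // i ∈ s}).val with hm
  have hcard : Multiset.card m = N := by
    rw [hm, Multiset.card_map]
    exact (Finset.card_attach (s := s)).trans hs
  have hv := congrArg (Polynomial.eval Y) (Multiset.prod_X_sub_X_eq_sum_esymm m)
  rw [hcard, Polynomial.eval_multiset_prod, Multiset.map_map] at hv
  have hprod : (Multiset.map (Polynomial.eval Y ∘ fun t => X - C t) m).prod =
      ∏ i ∈ s, (Y - y i) := by
    rw [hm, Multiset.map_map]
    have e1 : (Multiset.map ((Polynomial.eval Y ∘ fun t => X - C t) ∘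
        fun i : {i // i ∈ s} => y i) (Finset.univ : Finset {i // i ∈ s}).val).prod =
        ∏ i : {i // i ∈ s}, (Y - y i) := by
      rw [Finset.prod]
      simp
    rw [e1]
    exact Finset.prod_coe_sort s (fun i => Y - y i)
  rw [hprod] at hv
  rw [hv, ev2, Polynomial.map_sum, Polynomial.eval_finset_sum, Polynomial.eval_finset_sum]
  refine Finset.sum_congr rfl fun j hj => ?_
  rw [Finset.mem_range] at hj
  have h4 := hE j (by omega)
  rw [MvPolynomial.aeval_esymm_eq_multiset_esymm] at h4
  simp only [Polynomial.map_mul, Polynomial.map_pow, Polynomial.map_neg, Polynomial.map_one,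
    Polynomial.map_C, Polynomial.map_X, Polynomial.eval_mul, Polynomial.eval_pow,
    Polynomial.eval_neg, Polynomial.eval_one, Polynomial.eval_C, Polynomial.eval_X,
    coe_eval₂RingHom]
  rw [h4]

end Pool.Agent.ZPT.H49
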